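import Mathlib

open Filter Topology Polynomial

namespace Pool.Agent.R951.SA

/-- evaluation of a polynomial in `S` over `ℝ[T]` -/
noncomputable def ev (s t : ℝ) : ℝ[X][X] →+* ℝ := Polynomial.eval₂RingHom (evalRingHom t) s

lemma ev_tendsto (Q : ℝ[X][X]) :
    Tendsto (fun L : ℝ => Real.exp (-L) * ev (Real.exp (-L)) L Q) atTop (𝓝 0) := by
  induction Q using Polynomial.induction_on' with
  | add p q hp hq =>
    simp only [map_add, mul_add]
    simpa using hp.add hq
  | monomial n p =>
    have h1 : Tendsto (fun L : ℝ => Real.exp (-L) ^ n) atTop (𝓝 (0 ^ n)) :=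
      (Real.tendsto_exp_neg_atTop_nhds_zero).pow n
    have h2 := p.tendsto_div_exp_atTop.mul h1
    rw [zero_mul] at h2
    refine h2.congr fun L => ?_
    simp only [ev, coe_eval₂RingHom, eval₂_monomial, coe_evalRingHom]
    rw [Real.exp_neg, div_eq_mul_inv]
    ring

lemma ev_zero_imp (P : ℝ[X][X]) (h : ∀ L : ℝ, 0 < L → ev (Real.exp (-L)) L P = 0) : P = 0 := by
  induction hn : P.natDegree using Nat.strong_induction_on generalizing P with
  | _ n ih =>
    have hdec := Polynomial.divX_mul_X_add P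
    have hev : ∀ L : ℝ, 0 < L → (P.coeff 0).eval L =
        - (Real.exp (-L) * ev (Real.exp (-L)) L (divX P)) := by
      intro L hL
      have h1 := h L hL
      rw [← hdec, map_add, map_mul] at h1
      have h2 : ev (Real.exp (-L)) L (X : ℝ[X][X]) = Real.exp (-L) := by simp [ev]
      have h3 : ev (Real.exp (-L)) L (C (P.coeff 0)) = (P.coeff 0).eval L := by simp [ev]
      rw [h2, h3] at h1
      linarith
    have hp0 : P.coeff 0 = 0 := by
      have h1 : Tendsto (fun L : ℝ => (P.coeff 0).eval L) atTop (𝓝 0) := by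
        have h2 := (ev_tendsto (divX P)).neg
        rw [neg_zero] at h2
        refine h2.congr' ?_
        filter_upwards [eventually_gt_atTop 0] with L hL
        rw [hev L hL]
      exact Polynomial.leadingCoeff_eq_zero.1 ((Polynomial.tendsto_nhds_iff _).1 h1).1
    rw [hp0, map_zero, add_zero] at hdec
    by_cases hn0 : n = 0
    · have : P = C (P.coeff 0) := Polynomial.eq_C_of_natDegree_eq_zero (hn.trans hn0)
      rw [this, hp0, map_zero]
    · have hd : (divX P).natDegree < n := by
        rw [Polynomial.natDegree_divX_eq_natDegree_tsub_one, hn]; omega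
      have := ih _ hd (divX P) (fun L hL => by
        have h1 := hev L hL
        rw [hp0, eval_zero] at h1
        have h2 : Real.exp (-L) * ev (Real.exp (-L)) L (divX P) = 0 := by linarith
        exact (mul_eq_zero.1 h2).resolve_left (Real.exp_pos _).ne') rfl
      rw [← hdec, this, zero_mul]

variable {σ : Type*} [DecidableEq σ]

/-- the curve -/
noncomputable def zz (i0 : σ) (L : ℝ) : σ → ℝ := fun i =>
  if i = i0 then Real.exp (-L) * (1 + L) / 2 else 3/4 * Real.exp (-L) ^ 2 * L ^ 2

noncomputable def gg (i0 : σ) : σ → ℝ[X][X] := fun i =>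
  if i = i0 then X * C ((1 + X) * C (1/2)) else X ^ 2 * C (C (3/4) * X ^ 2)

lemma ev_gg (i0 : σ) (s t : ℝ) (i : σ) :
    ev s t (gg i0 i) = if i = i0 then s * (1 + t) / 2 else 3/4 * s ^ 2 * t ^ 2 := by
  unfold gg ev
  split_ifs
  · simp; ring
  · simp [eval₂_pow]; ring

lemma ev_aeval (i0 : σ) (s t : ℝ) (Q : MvPolynomial σ ℝ) :
    ev s t (MvPolynomial.aeval (gg i0) Q) =
      MvPolynomial.eval (fun i => if i = i0 then s * (1 + t) / 2 else 3/4 * s ^ 2 * t ^ 2) Q := by
  have : (ev s t).comp (MvPolynomial.aeval (gg i0) : MvPolynomial σ ℝ →ₐ[ℝ] ℝ[X][X]).toRingHom =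
      MvPolynomial.eval (fun i => if i = i0 then s * (1 + t) / 2 else 3/4 * s ^ 2 * t ^ 2) := by
    apply MvPolynomial.ringHom_ext
    · intro r
      simp [ev]
    · intro i
      simp only [AlgHom.toRingHom_eq_coe, RingHom.coe_comp, RingHom.coe_coe, Function.comp_apply,
        MvPolynomial.aeval_X, MvPolynomial.eval_X]
      exact ev_gg i0 s t i
  exact congrArg (fun φ : MvPolynomial σ ℝ →+* ℝ => φ Q) this

theorem alg_zero (i0 i1 : σ) (h01 : i1 ≠ i0) (hall : ∀ i, i = i0 ∨ i = i1) (Q : MvPolynomial σ ℝ)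
    (h : ∀ L : ℝ, 0 < L → MvPolynomial.eval (zz i0 L) Q = 0) : Q = 0 := by
  have h1 : MvPolynomial.aeval (gg i0) Q = 0 := by
    apply ev_zero_imp
    intro L hL
    rw [ev_aeval]
    exact h L hL
  have h2 : ∀ s t : ℝ,
      MvPolynomial.eval (fun i => if i = i0 then s * (1 + t) / 2 else 3/4 * s ^ 2 * t ^ 2) Q = 0 := by
    intro s t
    rw [← ev_aeval, h1, map_zero]
  refine MvPolynomial.funext_set (fun i => if i = i0 then Set.Ioi (10:ℝ) else Set.Ioo (0:ℝ) 1)
    (fun i => ?_) fun x hx => ?_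
  · split_ifs
    · exact Set.Ioi_infinite _
    · exact Set.Ioo_infinite zero_lt_one
  · have hx0 : 10 < x i0 := by simpa using hx i0 (Set.mem_univ _)
    have hx1 : x i1 ∈ Set.Ioo (0:ℝ) 1 := by simpa [h01] using hx i1 (Set.mem_univ _)
    set β := Real.sqrt (4 * x i1 / 3) with hβ
    have hβ2 : β ^ 2 = 4 * x i1 / 3 := Real.sq_sqrt (by linarith [hx1.1])
    have hβ0 : 0 ≤ β := Real.sqrt_nonneg _
    have hβ1 : β ≤ 2 := by
      nlinarith [hx1.2]
    have hs : 0 < 2 * x i0 - β := by linarith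
    have := h2 (2 * x i0 - β) (β / (2 * x i0 - β))
    rw [map_zero, ← this]
    congr 1
    congr 1
    funext i
    rcases hall i with rfl | rfl
    · rw [if_pos rfl, mul_add, mul_div_cancel₀ _ hs.ne']
      ring
    · rw [if_neg h01]
      have h3 : (2 * x i0 - β) ^ 2 * (β / (2 * x i0 - β)) ^ 2 = β ^ 2 := by
        rw [← mul_pow, mul_div_cancel₀ _ hs.ne']
      rw [mul_assoc, h3, hβ2]
      ring

end Pool.Agent.R951.SA
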