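import Pool.Agent.R951.SA.Upper

open MeasureTheory Set Filter Topology intervalIntegral

namespace Pool.Agent.R951.SA

noncomputable def SS (a t : ℝ) : ℝ := Real.sqrt ((2*t-1)^2 + 4*a)
noncomputable def mm (a t : ℝ) : ℝ := (1 + (2*t-1)/SS a t)/2
noncomputable def ff (a t : ℝ) : ℝ := if t ≤ a/2 then 1 else if t ≤ 1 - a/2 then mm a t else 0
noncomputable def YY (a t : ℝ) : ℝ := ((2*t-1) + SS a t)/4

variable {a : ℝ}

lemma SS_sq (ha : 0 < a) (t : ℝ) : SS a t ^ 2 = (2*t-1)^2 + 4*a :=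
  Real.sq_sqrt (by positivity)

lemma SS_pos (ha : 0 < a) (t : ℝ) : 0 < SS a t := Real.sqrt_pos.2 (by positivity)

lemma SS_abs (ha : 0 < a) (t : ℝ) : |2*t-1| < SS a t := by
  apply abs_lt_of_sq_lt_sq _ (SS_pos ha t).le
  rw [SS_sq ha]; linarith

lemma mm_mem (ha : 0 < a) (t : ℝ) : mm a t ∈ Icc (0:ℝ) 1 := by
  have h := abs_lt.1 (SS_abs ha t)
  have hp := SS_pos ha t
  have h1 : (2*t-1)/SS a t ≤ 1 := by rw [div_le_iff₀ hp]; linarith [h.2]
  have h2 : -1 ≤ (2*t-1)/SS a t := by rw [le_div_iff₀ hp]; linarith [h.1]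
  unfold mm
  constructor <;> linarith

lemma SS_cont (a : ℝ) : Continuous (SS a) := by unfold SS; fun_prop

lemma mm_cont (ha : 0 < a) : Continuous (mm a) := by
  unfold mm
  refine Continuous.div_const (continuous_const.add (Continuous.div (by fun_prop) (SS_cont a)
    fun t => (SS_pos ha t).ne')) 2

lemma YY_deriv (ha : 0 < a) (t : ℝ) : HasDerivAt (YY a) (mm a t) t := by
  have hp := SS_pos ha t
  have hne : (2*t-1)^2 + 4*a ≠ 0 := by positivity
  have h1 : HasDerivAt (fun t : ℝ => (2*t-1)^2 + 4*a) (2 * (2*t-1) * 2) t := by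
    have h2 : HasDerivAt (fun t : ℝ => 2*t-1) 2 t := by
      simpa using ((hasDerivAt_id t).const_mul 2).sub_const 1
    have := (h2.fun_pow 2).add_const (4*a)
    simpa using this
  have h3 := h1.sqrt hne
  have h2 : HasDerivAt (fun t : ℝ => 2*t-1) 2 t := by
    simpa using ((hasDerivAt_id t).const_mul 2).sub_const 1
  have h4 := (h2.add h3).div_const 4
  refine h4.congr_deriv ?_
  change _ = (1 + (2*t-1)/SS a t)/2
  change (2 + 2 * (2 * t - 1) * 2 / (2 * SS a t)) / 4 = _
  field_simp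
  ring

lemma YY_pos (ha : 0 < a) (t : ℝ) : 0 < YY a t := by
  have h := abs_lt.1 (SS_abs ha t)
  unfold YY; linarith [h.1]

lemma YY_rel (ha : 0 < a) (t : ℝ) : YY a t * (1/2 - t + YY a t) = a/4 := by
  have := SS_sq ha t
  unfold YY
  nlinarith

lemma YY_left (ha : 0 < a) : YY a (a/2) = a/2 := by
  have : SS a (a/2) = a + 1 := by
    unfold SS
    rw [show (2*(a/2)-1)^2 + 4*a = (a+1)^2 by ring]
    exact Real.sqrt_sq (by linarith)
  unfold YY; rw [this]; ring

lemma YY_right (ha : 0 < a) : YY a (1 - a/2) = 1/2 := by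
  have : SS a (1 - a/2) = a + 1 := by
    unfold SS
    rw [show (2*(1-a/2)-1)^2 + 4*a = (a+1)^2 by ring]
    exact Real.sqrt_sq (by linarith)
  unfold YY; rw [this]; ring

lemma mm_rel (ha : 0 < a) (t : ℝ) : YY a t * (1 - mm a t) = a/4 * (mm a t / YY a t) := by
  have hY := YY_pos ha t
  have h1 : HasDerivAt (fun t => YY a t * (1/2 - t + YY a t))
      (mm a t * (1/2 - t + YY a t) + YY a t * (-1 + mm a t)) t := by
    have h2 : HasDerivAt (fun t : ℝ => 1/2 - t) (-1) t := by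
      exact (hasDerivAt_id' t).const_sub (1/2)
    exact (YY_deriv ha t).fun_mul (h2.fun_add (YY_deriv ha t))
  have h3 : (fun t => YY a t * (1/2 - t + YY a t)) = fun _ => a/4 := funext fun t => YY_rel ha t
  rw [h3] at h1
  have h4 := h1.unique (hasDerivAt_const t (a/4))
  have h5 : 1/2 - t + YY a t = a/4 / YY a t := by
    rw [eq_div_iff hY.ne', mul_comm]; exact YY_rel ha t
  rw [h5] at h4
  have : mm a t * (a / 4 / YY a t) = a/4 * (mm a t / YY a t) := by ring
  linarith

lemma ff_adm (ha : 0 < a) : Adm (ff a) := by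
  refine ⟨?_, fun x => ?_⟩
  · refine Measurable.ite (measurableSet_Iic) measurable_const ?_
    exact Measurable.ite (measurableSet_Iic) (mm_cont ha).measurable measurable_const
  · unfold ff
    split_ifs
    · simp
    · exact mm_mem ha x
    · simp

lemma ff1 {x : ℝ} (h : x ≤ a/2) : ff a x = 1 := by simp [ff, h]
lemma ff2 {x : ℝ} (h : a/2 < x) (h' : x ≤ 1 - a/2) : ff a x = mm a x := by
  simp [ff, not_le.2 h, h']
lemma ff3 {x : ℝ} (ha1 : a < 1) (h : 1 - a/2 < x) : ff a x = 0 := by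
  simp only [ff]
  rw [if_neg (by linarith), if_neg (by linarith)]

lemma congr_ioc {g h : ℝ → ℝ} {s t : ℝ} (hst : s ≤ t) (H : ∀ x, s < x → x ≤ t → g x = h x) :
    ∫ x in s..t, g x = ∫ x in s..t, h x := by
  apply intervalIntegral.integral_congr_ae
  refine ae_of_all _ fun x hx => ?_
  rw [uIoc_of_le hst] at hx
  exact H x hx.1 hx.2

lemma XX1 {t : ℝ} (h0 : 0 ≤ t) (h1 : t ≤ a/2) : XX (ff a) t = t := by
  unfold XX
  rw [congr_ioc (h := fun _ => (1:ℝ)) h0 fun x _ hx => ff1 (hx.trans h1)]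
  simp

lemma XX2 (ha : 0 < a) {t : ℝ} (h0 : a/2 ≤ t) (h1 : t ≤ 1 - a/2) :
    XX (ff a) t = YY a t := by
  have hl := (ff_adm ha).loc
  have : XX (ff a) t = XX (ff a) (a/2) + ∫ x in (a/2)..t, ff a x := by
    unfold XX
    rw [integral_add_adjacent_intervals (loc_ii hl _ _) (loc_ii hl _ _)]
  rw [this, XX1 (by positivity) le_rfl,
    congr_ioc (h := mm a) h0 fun x hx hx' => ff2 hx (hx'.trans h1),
    integral_eq_sub_of_hasDerivAt (fun x _ => YY_deriv ha x) ((mm_cont ha).intervalIntegrable _ _),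
    YY_left ha]
  ring

lemma XX3 (ha : 0 < a) (ha1 : a < 1) {t : ℝ} (h0 : 1 - a/2 ≤ t) :
    XX (ff a) t = 1/2 := by
  have hl := (ff_adm ha).loc
  have : XX (ff a) t = XX (ff a) (1 - a/2) + ∫ x in (1-a/2)..t, ff a x := by
    unfold XX
    rw [integral_add_adjacent_intervals (loc_ii hl _ _) (loc_ii hl _ _)]
  rw [this, XX2 ha (by linarith) le_rfl, YY_right ha,
    congr_ioc (h := fun _ => (0:ℝ)) h0 fun x hx hx' => ff3 ha1 hx]
  simp

lemma RR2 (ha : 0 < a) (ha1 : a < 1) {t : ℝ} (h0 : a/2 ≤ t) (h1 : t ≤ 1 - a/2) :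
    RR (ff a) t = a/4 / YY a t := by
  rw [RR_eq (ff_adm ha), XX2 ha h0 h1, XX3 ha ha1 (by linarith)]
  have hY := YY_pos ha t
  rw [eq_div_iff hY.ne', mul_comm, ← YY_rel ha t]
  ring

lemma UU1 {t : ℝ} (h0 : 0 ≤ t) (h1 : t ≤ a/2) : UU (ff a) t = 0 := by
  unfold UU
  rw [congr_ioc (h := fun _ => (0:ℝ)) h0 fun x _ hx => by rw [ff1 (hx.trans h1)]; simp]
  simp

lemma logY_deriv (ha : 0 < a) (t : ℝ) :
    HasDerivAt (fun t => Real.log (YY a t)) (mm a t / YY a t) t :=
  (YY_deriv ha t).log (YY_pos ha t).ne'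

lemma YY_cont (ha : 0 < a) : Continuous (YY a) :=
  continuous_iff_continuousAt.2 fun t => (YY_deriv ha t).continuousAt

lemma UU2 (ha : 0 < a) {t : ℝ} (h0 : a/2 ≤ t) (h1 : t ≤ 1 - a/2) :
    UU (ff a) t = a/4 * (Real.log (YY a t) - Real.log (a/2)) := by
  have hl := (ff_adm ha).locU
  have : UU (ff a) t = UU (ff a) (a/2) + ∫ x in (a/2)..t, XX (ff a) x * (1 - ff a x) := by
    unfold UU
    rw [integral_add_adjacent_intervals (loc_ii hl _ _) (loc_ii hl _ _)]
  rw [this, UU1 (by positivity) le_rfl,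
    congr_ioc (h := fun x => a/4 * (mm a x / YY a x)) h0 fun x hx hx' => by
      rw [ff2 hx (hx'.trans h1), XX2 ha hx.le (hx'.trans h1), mm_rel ha],
    intervalIntegral.integral_const_mul,
    integral_eq_sub_of_hasDerivAt (fun x _ => logY_deriv ha x)
      (((mm_cont ha).div (YY_cont ha) fun x => (YY_pos ha x).ne').intervalIntegrable _ _),
    YY_left ha]
  ring

lemma log_diff (ha : 0 < a) : Real.log (1/2) - Real.log (a/2) = - Real.log a := by
  rw [Real.log_div ha.ne' two_ne_zero, Real.log_div one_ne_zero two_ne_zero, Real.log_one]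
  ring

theorem UU_att (ha : 0 < a) (ha1 : a < 1) : UU (ff a) 1 = a/4 * (1 - Real.log a) := by
  have hl := (ff_adm ha).locU
  have : UU (ff a) 1 = UU (ff a) (1 - a/2) + ∫ x in (1-a/2)..1, XX (ff a) x * (1 - ff a x) := by
    unfold UU
    rw [integral_add_adjacent_intervals (loc_ii hl _ _) (loc_ii hl _ _)]
  rw [this, UU2 ha (by linarith) le_rfl, YY_right ha, log_diff ha,
    congr_ioc (h := fun x => (1/2 : ℝ)) (by linarith) fun x hx hx' => by
      rw [ff3 ha1 hx, XX3 ha ha1 hx.le]; ring]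
  simp
  ring

theorem JJ_att (ha : 0 < a) (ha1 : a < 1) :
    (∫ t in (0:ℝ)..1, UU (ff a) t * RR (ff a) t * ff a t) = a^2/32 * (Real.log a)^2 := by
  have hA := ff_adm ha
  have hi : ∀ s t : ℝ, IntervalIntegrable (fun t => UU (ff a) t * RR (ff a) t * ff a t) volume s t :=
    fun s t => (loc_ii hA.loc s t).continuousOn_mul ((UU_cont hA).mul (RR_cont hA)).continuousOn
  rw [← integral_add_adjacent_intervals (hi 0 (a/2)) (hi _ _),
    ← integral_add_adjacent_intervals (hi (a/2) (1-a/2)) (hi _ _)]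
  rw [congr_ioc (s := 0) (t := a/2) (h := fun _ => (0:ℝ)) (by linarith) fun x hx hx' => by
    rw [UU1 hx.le hx']; ring]
  rw [congr_ioc (s := 1-a/2) (t := 1) (h := fun _ => (0:ℝ)) (by linarith) fun x hx hx' => by
    rw [ff3 ha1 hx]; ring]
  rw [congr_ioc (s := a/2) (t := 1-a/2)
    (h := fun x => a^2/32 * (2 * (Real.log (YY a x) - Real.log (a/2)) * (mm a x / YY a x)))
      (by linarith) fun x hx hx' => by
    rw [ff2 hx hx', RR2 ha ha1 hx.le hx', UU2 ha hx.le hx']
    have := (YY_pos ha x).ne'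
    field_simp
    ring]
  rw [intervalIntegral.integral_zero, intervalIntegral.integral_zero,
    intervalIntegral.integral_const_mul,
    integral_eq_sub_of_hasDerivAt (f := fun x => (Real.log (YY a x) - Real.log (a/2))^2)
      (fun x _ => by
        have h := ((logY_deriv ha x).sub_const (Real.log (a/2))).fun_pow 2
        simpa using h) ?_]
  · rw [YY_left ha, YY_right ha, log_diff ha]
    simp
  · refine Continuous.intervalIntegrable ?_ _ _
    have h1 : Continuous fun x => Real.log (YY a x) :=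
      (YY_cont ha).log fun x => (YY_pos ha x).ne'
    exact (continuous_const.mul (h1.sub continuous_const)).mul
      ((mm_cont ha).div (YY_cont ha) fun x => (YY_pos ha x).ne')

end Pool.Agent.R951.SA
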