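import Pool.Agent.R951.SA.Upper

open MeasureTheory Set Filter Topology

namespace Pool.Agent.R951.SA

/-- the factor `g_i`: `f` for the letter 1 and `1 - f` for the letter 0 -/
def fac (b : Bool) (f : ℝ → ℝ) (x : ℝ) : ℝ := if b then f x else 1 - f x

/-- The density of the word `w` in `f`:
`m! * ∫_{0 ≤ x_1 < ... < x_m ≤ 1} ∏ g_i(x_i) dx`, an `m`-dimensional Lebesgue integral. -/
noncomputable def rho (w : List Bool) (f : ℝ → ℝ) : ℝ :=
  (w.length.factorial : ℝ) *
    ∫ x in {x : Fin w.length → ℝ | StrictMono x ∧ ∀ i, x i ∈ Icc (0:ℝ) 1},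
      ∏ i, fac (w.get i) f (x i)

/-- strictly increasing vectors with entries in `T` -/
def DD (n : ℕ) (T : Set ℝ) : Set (Fin n → ℝ) := {x | StrictMono x ∧ ∀ i, x i ∈ T}

lemma DD_meas (n : ℕ) {T : Set ℝ} (hT : MeasurableSet T) : MeasurableSet (DD n T) := by
  have : DD n T = (⋂ i : Fin n, ⋂ j : Fin n, {x | i < j → x i < x j}) ∩ ⋂ i : Fin n, {x | x i ∈ T} := by
    ext x
    simp only [DD, mem_ofPred_eq, mem_inter_iff, mem_iInter]
    constructor
    · rintro ⟨h1, h2⟩; exact ⟨fun i j hij => h1 hij, h2⟩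
    · rintro ⟨h1, h2⟩; exact ⟨fun i j hij => h1 i j hij, h2⟩
  rw [this]
  refine (MeasurableSet.iInter fun i => MeasurableSet.iInter fun j => ?_).inter
    (MeasurableSet.iInter fun i => ?_)
  · by_cases hij : i < j
    · simp only [hij, true_implies]
      exact measurableSet_lt (measurable_pi_apply i) (measurable_pi_apply j)
    · simp [hij]
  · exact hT.preimage (measurable_pi_apply i)

lemma insert_last_mem (n : ℕ) {T : Set ℝ} (hT1 : T ⊆ Icc 0 1) (hT2 : ∀ s ∈ T, Ico 0 s ⊆ T)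
    (s : ℝ) (y : Fin n → ℝ) :
    (Fin.last n).insertNth (α := fun _ => ℝ) s y ∈ DD (n+1) T ↔ s ∈ T ∧ y ∈ DD n (Ico 0 s) := by
  rw [Fin.insertNth_last']
  constructor
  · rintro ⟨h1, h2⟩
    have hs : s ∈ T := by simpa using h2 (Fin.last n)
    refine ⟨hs, fun i j hij => ?_, fun i => ⟨?_, ?_⟩⟩
    · simpa using h1 (Fin.castSucc_lt_castSucc_iff.2 hij)
    · have := (hT1 (h2 i.castSucc)).1
      simpa using this
    · simpa using h1 (Fin.castSucc_lt_last i)
  · rintro ⟨hs, h1, h2⟩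
    refine ⟨fun i j hij => ?_, fun i => ?_⟩
    · induction j using Fin.lastCases with
      | last =>
        induction i using Fin.lastCases with
        | last => exact absurd hij (lt_irrefl _)
        | cast i => simpa using (h2 i).2
      | cast j =>
        induction i using Fin.lastCases with
        | last => exact absurd hij (not_lt.2 (Fin.le_last _))
        | cast i => simpa using h1 (Fin.castSucc_lt_castSucc_iff.1 hij)
    · induction i using Fin.lastCases with
      | last => simpa using hs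
      | cast i => simpa using hT2 s hs (h2 i)

/-- bounded measurable factors -/
def Good {n : ℕ} (g : Fin n → ℝ → ℝ) : Prop := ∀ i, Measurable (g i) ∧ ∀ x, |g i x| ≤ 1

lemma integrable_DD {n : ℕ} {g : Fin n → ℝ → ℝ} (hg : Good g) {T : Set ℝ} (hT : MeasurableSet T)
    (hT1 : T ⊆ Icc 0 1) :
    Integrable ((DD n T).indicator fun x => ∏ i, g i (x i)) volume := by
  rw [integrable_indicator_iff (DD_meas n hT)]
  have hm : Measurable fun x : Fin n → ℝ => ∏ i, g i (x i) :=
    Finset.measurable_prod _ fun i _ => (hg i).1.comp (measurable_pi_apply i)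
  refine Measure.integrableOn_of_bounded (M := 1) ?_ hm.aestronglyMeasurable ?_
  · have h1 : DD n T ⊆ Icc (fun _ => (0:ℝ)) (fun _ => (1:ℝ)) := fun x hx =>
      ⟨fun i => (hT1 (hx.2 i)).1, fun i => (hT1 (hx.2 i)).2⟩
    exact ((measure_mono h1).trans_lt isCompact_Icc.measure_lt_top).ne
  · refine ae_of_all _ fun x => ?_
    rw [Real.norm_eq_abs, Finset.abs_prod]
    exact Finset.prod_le_one (fun i _ => abs_nonneg _) fun i _ => (hg i).2 _

theorem step {n : ℕ} {g : Fin (n+1) → ℝ → ℝ} (hg : Good g) {T : Set ℝ} (hT : MeasurableSet T)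
    (hT1 : T ⊆ Icc 0 1) (hT2 : ∀ s ∈ T, Ico 0 s ⊆ T) :
    ∫ x in DD (n+1) T, ∏ i, g i (x i) =
      ∫ s in T, (∫ y in DD n (Ico 0 s), ∏ i, g i.castSucc (y i)) * g (Fin.last n) s := by
  have hmp := (volume_preserving_piFinSuccAbove (fun _ : Fin (n+1) => ℝ) (Fin.last n)).symm
  rw [← integral_indicator (DD_meas _ hT), ← hmp.integral_comp']
  rw [Measure.volume_eq_prod, integral_prod]
  · rw [← integral_indicator hT]
    congr 1
    funext s
    by_cases hs : s ∈ T
    · rw [indicator_of_mem hs]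
      rw [← integral_indicator (DD_meas _ measurableSet_Ico), ← integral_mul_const]
      congr 1
      funext y
      change indicator _ _ ((Fin.last n).insertNth (α := fun _ => ℝ) s y) = _
      by_cases hy : y ∈ DD n (Ico 0 s)
      · rw [indicator_of_mem ((insert_last_mem n hT1 hT2 s y).2 ⟨hs, hy⟩), indicator_of_mem hy,
          Fin.insertNth_last', Fin.prod_univ_castSucc]
        simp
      · rw [indicator_of_notMem (fun h => hy ((insert_last_mem n hT1 hT2 s y).1 h).2),
          indicator_of_notMem hy, zero_mul]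
    · rw [indicator_of_notMem hs]
      have : ∀ y : Fin n → ℝ, (DD (n+1) T).indicator (fun x => ∏ i, g i (x i))
          ((MeasurableEquiv.piFinSuccAbove (fun _ : Fin (n+1) => ℝ) (Fin.last n)).symm (s, y)) = 0 := by
        intro y
        change indicator _ _ ((Fin.last n).insertNth (α := fun _ => ℝ) s y) = _
        exact indicator_of_notMem (fun h => hs ((insert_last_mem n hT1 hT2 s y).1 h).1) _
      simp only [this, integral_zero]
  · rw [← Measure.volume_eq_prod]
    exact (hmp.integrable_comp_emb (MeasurableEquiv.measurableEmbedding _)).2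
      (integrable_DD hg hT hT1)

lemma K_zero (g : Fin 0 → ℝ → ℝ) (T : Set ℝ) : ∫ y in DD 0 T, ∏ i, g i (y i) = 1 := by
  have : DD 0 T = univ := by
    ext x
    simp only [DD, mem_ofPred_eq, mem_univ, iff_true]
    exact ⟨fun i => i.elim0, fun i => i.elim0⟩
  rw [this, Measure.restrict_univ, volume_pi, Measure.pi_of_empty (x := fun i => i.elim0)]
  simp

lemma fac_true (f : ℝ → ℝ) (x : ℝ) : fac true f x = f x := rfl
lemma fac_false (f : ℝ → ℝ) (x : ℝ) : fac false f x = 1 - f x := rfl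

lemma fac_meas {f : ℝ → ℝ} (hf : Adm f) (b : Bool) : Measurable (fac b f) := by
  cases b
  · exact measurable_const.sub hf.1
  · exact hf.1

lemma fac_abs {f : ℝ → ℝ} (hf : Adm f) (b : Bool) (x : ℝ) : |fac b f x| ≤ 1 := by
  have h0 := (hf.2 x).1
  have h1 := (hf.2 x).2
  cases b
  · rw [fac_false, abs_le]; constructor <;> linarith
  · rw [fac_true, abs_le]; constructor <;> linarith

lemma good_fac {n : ℕ} {f : ℝ → ℝ} (hf : Adm f) (b : Fin n → Bool) :
    Good fun i => fac (b i) f :=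
  fun i => ⟨fac_meas hf (b i), fac_abs hf (b i)⟩

lemma ico_ii (g : ℝ → ℝ) {s : ℝ} (hs : 0 ≤ s) : ∫ r in Ico 0 s, g r = ∫ r in (0:ℝ)..s, g r := by
  rw [intervalIntegral.integral_of_le hs, integral_Ico_eq_integral_Ioo, integral_Ioc_eq_integral_Ioo]

lemma icc_ii (g : ℝ → ℝ) : ∫ r in Icc (0:ℝ) 1, g r = ∫ r in (0:ℝ)..1, g r := by
  rw [intervalIntegral.integral_of_le zero_le_one, integral_Icc_eq_integral_Ioc]

lemma ico_T {s : ℝ} (hs : s ∈ Icc (0:ℝ) 1) : Ico 0 s ⊆ Icc 0 1 := fun _ hx =>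
  ⟨hx.1, hx.2.le.trans hs.2⟩

lemma ico_T2 {s : ℝ} : ∀ r ∈ Ico 0 s, Ico 0 r ⊆ Ico 0 s := fun _ hr _ hx =>
  ⟨hx.1, hx.2.trans hr.2⟩

lemma icc_T2 : ∀ r ∈ Icc (0:ℝ) 1, Ico 0 r ⊆ Icc 0 1 := fun _ hr _ hx =>
  ⟨hx.1, hx.2.le.trans hr.2⟩

lemma step_ico {n : ℕ} {f : ℝ → ℝ} (hf : Adm f) (b : Fin (n+1) → Bool) {s : ℝ}
    (hs : s ∈ Icc (0:ℝ) 1) :
    ∫ x in DD (n+1) (Ico 0 s), ∏ i, fac (b i) f (x i) =
      ∫ r in (0:ℝ)..s, (∫ y in DD n (Ico 0 r), ∏ i, fac (b i.castSucc) f (y i)) *
        fac (b (Fin.last n)) f r := by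
  rw [step (g := fun i => fac (b i) f) (good_fac hf b) measurableSet_Ico (ico_T hs) ico_T2,
    ico_ii _ hs.1]

lemma step_icc {n : ℕ} {f : ℝ → ℝ} (hf : Adm f) (b : Fin (n+1) → Bool) :
    ∫ x in DD (n+1) (Icc 0 1), ∏ i, fac (b i) f (x i) =
      ∫ r in (0:ℝ)..1, (∫ y in DD n (Ico 0 r), ∏ i, fac (b i.castSucc) f (y i)) *
        fac (b (Fin.last n)) f r := by
  rw [step (g := fun i => fac (b i) f) (good_fac hf b) measurableSet_Icc le_rfl icc_T2, icc_ii]

lemma K1 {f : ℝ → ℝ} (hf : Adm f) (b : Fin 1 → Bool) (hb : b 0 = true) {s : ℝ}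
    (hs : s ∈ Icc (0:ℝ) 1) :
    ∫ x in DD 1 (Ico 0 s), ∏ i, fac (b i) f (x i) = XX f s := by
  rw [step_ico hf b hs]
  unfold XX
  congr 1
  funext r
  rw [K_zero (fun i => fac (b i.castSucc) f), one_mul]
  have : b (Fin.last 0) = true := hb
  rw [this, fac_true]

lemma K2 {f : ℝ → ℝ} (hf : Adm f) (b : Fin 2 → Bool) (hb : b 0 = true) (hb1 : b 1 = false)
    {s : ℝ} (hs : s ∈ Icc (0:ℝ) 1) :
    ∫ x in DD 2 (Ico 0 s), ∏ i, fac (b i) f (x i) = UU f s := by
  rw [step_ico hf b hs]
  unfold UU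
  apply intervalIntegral.integral_congr
  intro r hr
  rw [uIcc_of_le hs.1] at hr
  simp only
  rw [K1 hf (fun i => b i.castSucc) hb ⟨hr.1, hr.2.trans hs.2⟩]
  have : b (Fin.last 1) = false := hb1
  rw [this, fac_false]

noncomputable def VV (f : ℝ → ℝ) (t : ℝ) : ℝ := ∫ s in (0:ℝ)..t, UU f s * f s

lemma K3 {f : ℝ → ℝ} (hf : Adm f) (b : Fin 3 → Bool) (hb : b 0 = true) (hb1 : b 1 = false)
    (hb2 : b 2 = true) {s : ℝ} (hs : s ∈ Icc (0:ℝ) 1) :
    ∫ x in DD 3 (Ico 0 s), ∏ i, fac (b i) f (x i) = VV f s := by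
  rw [step_ico hf b hs]
  unfold VV
  apply intervalIntegral.integral_congr
  intro r hr
  rw [uIcc_of_le hs.1] at hr
  simp only
  rw [K2 hf (fun i => b i.castSucc) hb hb1 ⟨hr.1, hr.2.trans hs.2⟩]
  have : b (Fin.last 2) = true := hb2
  rw [this, fac_true]

theorem rho_10 {f : ℝ → ℝ} (hf : Adm f) : rho [true, false] f = 2 * UU f 1 := by
  have h := step_icc (n := 1) hf (fun i => [true, false].get i)
  have h2 : rho [true, false] f = ((Nat.factorial 2 : ℕ) : ℝ) *
      ∫ x in DD 2 (Icc 0 1), ∏ i, fac ([true, false].get i) f (x i) := rfl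
  rw [h2, show ((Nat.factorial 2 : ℕ) : ℝ) = 2 by norm_num [Nat.factorial]]
  refine congrArg (2 * ·) (h.trans ?_)
  unfold UU
  apply intervalIntegral.integral_congr
  intro r hr
  rw [uIcc_of_le zero_le_one] at hr
  simp only
  rw [K1 hf (fun i => [true, false].get i.castSucc) rfl hr]
  rfl

theorem rho_1010' {f : ℝ → ℝ} (hf : Adm f) :
    rho [true, false, true, false] f = 24 * ∫ s in (0:ℝ)..1, VV f s * (1 - f s) := by
  have h := step_icc (n := 3) hf (fun i => [true, false, true, false].get i)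
  have h2 : rho [true, false, true, false] f = ((Nat.factorial 4 : ℕ) : ℝ) *
      ∫ x in DD 4 (Icc 0 1), ∏ i, fac ([true, false, true, false].get i) f (x i) := rfl
  rw [h2, show ((Nat.factorial 4 : ℕ) : ℝ) = 24 by norm_num [Nat.factorial]]
  refine congrArg (24 * ·) (h.trans ?_)
  apply intervalIntegral.integral_congr
  intro r hr
  rw [uIcc_of_le zero_le_one] at hr
  simp only
  rw [K3 hf (fun i => [true, false, true, false].get i.castSucc) rfl rfl rfl hr]
  rfl

theorem rho_1010 {f : ℝ → ℝ} (hf : Adm f) :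
    rho [true, false, true, false] f = 24 * ∫ t in (0:ℝ)..1, UU f t * RR f t * f t := by
  rw [rho_1010' hf]
  congr 1
  have hUf : LocallyIntegrable (fun x => UU f x * f x) volume := by
    refine ((UU_cont hf).locallyIntegrable).mono
      (((UU_cont hf).measurable.mul hf.1).aestronglyMeasurable)
      (ae_of_all _ fun x => ?_)
    rw [Real.norm_eq_abs, Real.norm_eq_abs, abs_mul]
    have h1 : |f x| ≤ 1 := by
      rw [abs_le]; constructor <;> linarith [(hf.2 x).1, (hf.2 x).2]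
    calc |UU f x| * |f x| ≤ |UU f x| * 1 := by gcongr
      _ = |UU f x| := mul_one _
  have hVac : AbsolutelyContinuousOnInterval (VV f) 0 1 :=
    (loc_ii hUf 0 1).absolutelyContinuousOnInterval_intervalIntegral (by simp)
  have hp := hVac.integral_mul_deriv_eq_deriv_mul (RR_ac hf)
  have h1 : ∫ s in (0:ℝ)..1, VV f s * deriv (RR f) s = - ∫ s in (0:ℝ)..1, VV f s * (1 - f s) := by
    rw [← intervalIntegral.integral_neg]
    apply intervalIntegral.integral_congr_ae
    filter_upwards [LocallyIntegrable.ae_hasDerivAt_integral hf.loc'] with t h2 _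
    have dR : HasDerivAt (RR f) (-(1 - f t)) t := by
      have h4 : RR f = fun x => -∫ s in (1:ℝ)..x, (1 - f s) := by
        funext x
        rw [RR, intervalIntegral.integral_symm]
      rw [h4]
      exact (h2 1).neg
    rw [dR.deriv]; ring
  have h2 : ∫ s in (0:ℝ)..1, deriv (VV f) s * RR f s = ∫ t in (0:ℝ)..1, UU f t * RR f t * f t := by
    apply intervalIntegral.integral_congr_ae
    filter_upwards [LocallyIntegrable.ae_hasDerivAt_integral hUf] with t h2 _
    have dV : HasDerivAt (VV f) (UU f t * f t) t := h2 0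
    rw [dV.deriv]; ring
  rw [h1, h2, RR_one] at hp
  have : VV f 0 = 0 := by simp [VV]
  rw [this] at hp
  linarith

end Pool.Agent.R951.SA
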