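import Mathlib

open MeasureTheory Set Filter Topology intervalIntegral

namespace Pool.Agent.R951.SA

/-- admissible densities: measurable with values in `[0,1]` -/
def Adm (f : ℝ → ℝ) : Prop := Measurable f ∧ ∀ x, f x ∈ Icc (0:ℝ) 1

noncomputable def XX (f : ℝ → ℝ) (t : ℝ) : ℝ := ∫ s in (0:ℝ)..t, f s
noncomputable def RR (f : ℝ → ℝ) (t : ℝ) : ℝ := ∫ s in t..(1:ℝ), (1 - f s)
noncomputable def UU (f : ℝ → ℝ) (t : ℝ) : ℝ := ∫ s in (0:ℝ)..t, XX f s * (1 - f s)

lemma loc_bdd {g : ℝ → ℝ} (hm : Measurable g) {C : ℝ} (hb : ∀ x, |g x| ≤ C) :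
    LocallyIntegrable g volume := by
  refine (locallyIntegrable_const C).mono hm.aestronglyMeasurable (ae_of_all _ fun x => ?_)
  rw [Real.norm_eq_abs, Real.norm_eq_abs]
  exact (hb x).trans (le_abs_self C)

lemma loc_ii {g : ℝ → ℝ} (h : LocallyIntegrable g volume) (a b : ℝ) :
    IntervalIntegrable g volume a b :=
  intervalIntegrable_iff.mpr
    ((h.integrableOn_isCompact isCompact_uIcc).mono_set uIoc_subset_uIcc)

variable {f : ℝ → ℝ}

lemma Adm.loc (hf : Adm f) : LocallyIntegrable f volume :=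
  loc_bdd hf.1 (C := 1) fun x => by
    rw [abs_le]; exact ⟨by linarith [(hf.2 x).1], (hf.2 x).2⟩

lemma Adm.loc' (hf : Adm f) : LocallyIntegrable (fun x => 1 - f x) volume :=
  loc_bdd (measurable_const.sub hf.1) (C := 1) fun x => by
    rw [abs_le]; constructor <;> linarith [(hf.2 x).1, (hf.2 x).2]

lemma XX_cont (hf : Adm f) : Continuous (XX f) :=
  intervalIntegral.continuous_primitive (fun a b => loc_ii hf.loc a b) 0

lemma Adm.locU (hf : Adm f) : LocallyIntegrable (fun x => XX f x * (1 - f x)) volume := by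
  refine ((XX_cont hf).locallyIntegrable).mono
    (((XX_cont hf).measurable.mul (measurable_const.sub hf.1)).aestronglyMeasurable)
    (ae_of_all _ fun x => ?_)
  rw [Real.norm_eq_abs, Real.norm_eq_abs, abs_mul]
  have h1 : |1 - f x| ≤ 1 := by
    rw [abs_le]; constructor <;> linarith [(hf.2 x).1, (hf.2 x).2]
  calc |XX f x| * |1 - f x| ≤ |XX f x| * 1 := by gcongr
    _ = |XX f x| := mul_one _

lemma UU_cont (hf : Adm f) : Continuous (UU f) :=
  intervalIntegral.continuous_primitive (fun a b => loc_ii hf.locU a b) 0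

lemma RR_eq (hf : Adm f) (t : ℝ) : RR f t = 1 - t - (XX f 1 - XX f t) := by
  unfold RR XX
  rw [intervalIntegral.integral_sub (by simp) (loc_ii hf.loc _ _)]
  rw [intervalIntegral.integral_interval_sub_left (loc_ii hf.loc _ _) (loc_ii hf.loc _ _)]
  simp

lemma RR_cont (hf : Adm f) : Continuous (RR f) := by
  have : RR f = fun t => 1 - t - (XX f 1 - XX f t) := funext fun t => RR_eq hf t
  rw [this]
  have := XX_cont hf
  fun_prop

lemma XX_mono (hf : Adm f) : Monotone (XX f) := by
  intro s t hst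
  have : XX f t - XX f s = ∫ x in s..t, f x := by
    unfold XX
    rw [intervalIntegral.integral_interval_sub_left (loc_ii hf.loc _ _) (loc_ii hf.loc _ _)]
  have h2 : 0 ≤ ∫ x in s..t, f x := intervalIntegral.integral_nonneg hst fun x _ => (hf.2 x).1
  linarith

lemma RR_anti (hf : Adm f) : Antitone (RR f) := by
  intro s t hst
  have : RR f s - RR f t = ∫ x in s..t, (1 - f x) := by
    unfold RR
    rw [sub_eq_iff_eq_add, intervalIntegral.integral_add_adjacent_intervals
      (loc_ii hf.loc' _ _) (loc_ii hf.loc' _ _)]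
  have h2 : 0 ≤ ∫ x in s..t, (1 - f x) :=
    intervalIntegral.integral_nonneg hst fun x _ => by linarith [(hf.2 x).2]
  linarith

lemma XX_zero : XX f 0 = 0 := by simp [XX]
lemma RR_one : RR f 1 = 0 := by simp [RR]
lemma UU_zero : UU f 0 = 0 := by simp [UU]

lemma XX_nonneg (hf : Adm f) {t : ℝ} (ht : 0 ≤ t) : 0 ≤ XX f t := by
  rw [← XX_zero (f := f)]; exact XX_mono hf ht

lemma RR_nonneg (hf : Adm f) {t : ℝ} (ht : t ≤ 1) : 0 ≤ RR f t := by
  rw [← RR_one (f := f)]; exact RR_anti hf ht

lemma UU_nonneg (hf : Adm f) {t : ℝ} (ht : 0 ≤ t) : 0 ≤ UU f t := by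
  refine intervalIntegral.integral_nonneg ht fun x hx => ?_
  exact mul_nonneg (XX_nonneg hf hx.1) (by linarith [(hf.2 x).2])

lemma XX_ac (hf : Adm f) : AbsolutelyContinuousOnInterval (XX f) 0 1 :=
  (loc_ii hf.loc 0 1).absolutelyContinuousOnInterval_intervalIntegral (by simp)

lemma UU_ac (hf : Adm f) : AbsolutelyContinuousOnInterval (UU f) 0 1 :=
  (loc_ii hf.locU 0 1).absolutelyContinuousOnInterval_intervalIntegral (by simp)

lemma RR_lip (hf : Adm f) (s t : ℝ) : |RR f s - RR f t| ≤ |s - t| := by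
  have : RR f s - RR f t = ∫ x in s..t, (1 - f x) := by
    unfold RR
    rw [sub_eq_iff_eq_add, intervalIntegral.integral_add_adjacent_intervals
      (loc_ii hf.loc' _ _) (loc_ii hf.loc' _ _)]
  rw [this]
  have := intervalIntegral.norm_integral_le_of_norm_le_const (a := s) (b := t) (C := 1)
    (f := fun x => 1 - f x) (fun x _ => by
      rw [Real.norm_eq_abs, abs_le]; constructor <;> linarith [(hf.2 x).1, (hf.2 x).2])
  rw [Real.norm_eq_abs, one_mul, abs_sub_comm] at this
  exact this

lemma RR_ac (hf : Adm f) : AbsolutelyContinuousOnInterval (RR f) 0 1 := by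
  refine LipschitzOnWith.absolutelyContinuousOnInterval (K := 1) ?_
  refine LipschitzOnWith.of_dist_le_mul fun x _ y _ => ?_
  rw [Real.dist_eq, Real.dist_eq]
  simpa using RR_lip hf x y

/-! ### the comparison function -/

noncomputable def ph (c s : ℝ) : ℝ := c ^ 2 / max s c + max (c - s) 0

lemma ph_cont {c : ℝ} (hc : 0 < c) : Continuous (ph c) := by
  unfold ph
  refine Continuous.add (Continuous.div continuous_const (by fun_prop) fun s => ?_) (by fun_prop)
  have : c ≤ max s c := le_max_right _ _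
  linarith

lemma ph_nonneg {c : ℝ} (hc : 0 < c) (s : ℝ) : 0 ≤ ph c s := by
  unfold ph
  have h1 : c ≤ max s c := le_max_right _ _
  have h2 : 0 < max s c := by linarith
  have := le_max_right (c - s) 0
  positivity

lemma ph_le {c : ℝ} (hc : 0 < c) {s : ℝ} (hs : 0 ≤ s) : ph c s ≤ 2 * c := by
  unfold ph
  have h1 : c ≤ max s c := le_max_right _ _
  have h2 : c ^ 2 / max s c ≤ c := by
    rw [div_le_iff₀ (by linarith)]; nlinarith
  have : max (c - s) 0 ≤ c := max_le (by linarith) hc.le
  linarith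

noncomputable def Ph (c r : ℝ) : ℝ := ∫ s in (0:ℝ)..r, ph c s

lemma Ph_deriv {c : ℝ} (hc : 0 < c) (r : ℝ) : HasDerivAt (Ph c) (ph c r) r :=
  intervalIntegral.integral_hasDerivAt_right ((ph_cont hc).intervalIntegrable _ _)
    ((ph_cont hc).stronglyMeasurableAtFilter _ _) (ph_cont hc).continuousAt

lemma Ph_mono {c : ℝ} (hc : 0 < c) {r s : ℝ} (h : r ≤ s) : Ph c r ≤ Ph c s := by
  have h1 : Ph c s - Ph c r = ∫ x in r..s, ph c x := by
    unfold Ph
    rw [intervalIntegral.integral_interval_sub_left ((ph_cont hc).intervalIntegrable _ _)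
      ((ph_cont hc).intervalIntegrable _ _)]
  have h2 : 0 ≤ ∫ x in r..s, ph c x := intervalIntegral.integral_nonneg h fun x _ => ph_nonneg hc x
  linarith

lemma Ph_lip {c : ℝ} (hc : 0 < c) {r s : ℝ} (hr : 0 ≤ r) (hs : 0 ≤ s) :
    |Ph c r - Ph c s| ≤ 2 * c * |r - s| := by
  have h1 : Ph c r - Ph c s = ∫ x in s..r, ph c x := by
    unfold Ph
    rw [intervalIntegral.integral_interval_sub_left ((ph_cont hc).intervalIntegrable _ _)
      ((ph_cont hc).intervalIntegrable _ _)]
  rw [h1]
  have := intervalIntegral.norm_integral_le_of_norm_le_const (a := s) (b := r) (C := 2 * c)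
    (f := fun x => ph c x) (fun x hx => by
      rw [Real.norm_eq_abs, abs_of_nonneg (ph_nonneg hc x)]
      apply ph_le hc
      have : min s r < x := hx.1
      have h3 : 0 ≤ min s r := le_min hs hr
      linarith)
  rw [Real.norm_eq_abs] at this
  exact this

lemma Ph_quarter {c : ℝ} (hc : 0 < c) (hc4 : c < 1/4) :
    Ph c (1/4) = 3/2 * c ^ 2 + c ^ 2 * Real.log (1/(4*c)) := by
  have h0 : Ph c (1/4) = (∫ s in (0:ℝ)..c, ph c s) + ∫ s in c..(1/4:ℝ), ph c s := by
    unfold Ph
    rw [intervalIntegral.integral_add_adjacent_intervals ((ph_cont hc).intervalIntegrable _ _)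
      ((ph_cont hc).intervalIntegrable _ _)]
  have h1 : (∫ s in (0:ℝ)..c, ph c s) = ∫ s in (0:ℝ)..c, (2 * c - s) := by
    apply intervalIntegral.integral_congr
    intro s hs
    rw [uIcc_of_le hc.le] at hs
    simp only [ph]
    rw [max_eq_right hs.2, max_eq_left (by linarith [hs.2])]
    field_simp
    ring
  have h2 : (∫ s in c..(1/4:ℝ), ph c s) = ∫ s in c..(1/4:ℝ), c ^ 2 * s⁻¹ := by
    apply intervalIntegral.integral_congr
    intro s hs
    rw [uIcc_of_le hc4.le] at hs
    simp only [ph]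
    rw [max_eq_left hs.1, max_eq_right (by linarith [hs.1])]
    rw [add_zero, div_eq_mul_inv]
  rw [h0, h1, h2, intervalIntegral.integral_const_mul, integral_inv_of_pos hc (by norm_num)]
  rw [intervalIntegral.integral_sub (by simp) (by simp)]
  simp
  rw [show (4:ℝ)⁻¹ / c = c⁻¹ * 4⁻¹ by ring]
  ring

lemma key_ineq {c A y R : ℝ} (hc : 0 < c) (_hy : 0 ≤ y) (hyA : y ≤ A) (hR : 0 ≤ R) :
    2 * c * y - y ^ 2 * R ≤ A * ph c (A * R) := by
  unfold ph
  rcases le_total (A * R) c with h | h
  · rw [max_eq_right h, max_eq_left (by linarith)]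
    have : c ^ 2 / c = c := by field_simp
    rw [this]
    have h1 : (A + y) * R ≤ 2 * c := by nlinarith
    nlinarith
  · rw [max_eq_left h, max_eq_right (by linarith)]
    have hAR : 0 < A * R := by linarith
    have hR' : 0 < R := by
      rcases hR.eq_or_lt with h0 | h0
      · rw [← h0, mul_zero] at hAR; exact absurd hAR (lt_irrefl _)
      · exact h0
    have hA : 0 < A := by
      by_contra hA
      push Not at hA
      nlinarith
    have : A * (c ^ 2 / (A * R) + 0) = c ^ 2 / R := by field_simp; ring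
    rw [this, le_div_iff₀ hR']
    nlinarith [sq_nonneg (c - y * R)]

/-- the upper bound -/
theorem upper (hf : Adm f) {c : ℝ} (hc : 0 < c) (hc4 : c < 1/4) :
    (∫ t in (0:ℝ)..1, UU f t * RR f t * f t) ≤
      (UU f 1) ^ 2 / 2 - 2 * c * UU f 1 + 3/2 * c ^ 2 + c ^ 2 * Real.log (1/(4*c)) := by
  set A := XX f 1 with hA
  have hA0 : 0 ≤ A := XX_nonneg hf zero_le_one
  let G : ℝ → ℝ := fun t => Ph c (A * RR f t)
  let H : ℝ → ℝ := fun t => UU f t * (XX f t * RR f t) + (1/2) * (UU f t * UU f t)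
    - (2 * c) * UU f t - G t
  have hGac : AbsolutelyContinuousOnInterval G 0 1 := by
    refine LipschitzOnWith.absolutelyContinuousOnInterval (K := Real.toNNReal (2 * c * A)) ?_
    refine LipschitzOnWith.of_dist_le_mul fun x hx y hy => ?_
    rw [uIcc_of_le zero_le_one] at hx hy
    rw [Real.dist_eq, Real.dist_eq, Real.coe_toNNReal _ (by positivity)]
    have h1 := Ph_lip hc (mul_nonneg hA0 (RR_nonneg hf hx.2)) (mul_nonneg hA0 (RR_nonneg hf hy.2))
    have h2 : |A * RR f x - A * RR f y| ≤ A * |x - y| := by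
      rw [← mul_sub, abs_mul, abs_of_nonneg hA0]
      exact mul_le_mul_of_nonneg_left (RR_lip hf x y) hA0
    calc |G x - G y| ≤ 2 * c * |A * RR f x - A * RR f y| := h1
      _ ≤ 2 * c * (A * |x - y|) := by gcongr
      _ = 2 * c * A * |x - y| := by ring
  have hHac : AbsolutelyContinuousOnInterval H 0 1 :=
    ((((UU_ac hf).fun_mul ((XX_ac hf).fun_mul (RR_ac hf))).fun_add
      (((UU_ac hf).fun_mul (UU_ac hf)).const_mul (1/2))).fun_sub
      ((UU_ac hf).const_mul (2 * c))).fun_sub hGac
  have hFTC := hHac.integral_deriv_eq_sub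
  have hle : (∫ t in (0:ℝ)..1, UU f t * RR f t * f t) ≤ ∫ t in (0:ℝ)..1, deriv H t := by
    refine intervalIntegral.integral_mono_ae_restrict zero_le_one ?_ hHac.intervalIntegrable_deriv ?_
    · exact (loc_ii hf.loc 0 1).continuousOn_mul ((UU_cont hf).mul (RR_cont hf)).continuousOn
    · refine (ae_restrict_iff' measurableSet_Icc).2 ?_
      filter_upwards [LocallyIntegrable.ae_hasDerivAt_integral hf.loc,
        LocallyIntegrable.ae_hasDerivAt_integral hf.loc',
        LocallyIntegrable.ae_hasDerivAt_integral hf.locU] with t h1 h2 h3 ht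
      have dX : HasDerivAt (XX f) (f t) t := h1 0
      have dU : HasDerivAt (UU f) (XX f t * (1 - f t)) t := h3 0
      have dR : HasDerivAt (RR f) (-(1 - f t)) t := by
        have h4 : RR f = fun x => -∫ s in (1:ℝ)..x, (1 - f s) := by
          funext x
          rw [RR, intervalIntegral.integral_symm]
        rw [h4]
        exact (h2 1).neg
      have dG : HasDerivAt G (ph c (A * RR f t) * (A * (-(1 - f t)))) t :=
        HasDerivAt.comp (h₂ := Ph c) t (Ph_deriv hc _) (dR.const_mul A)
      have dH := ((((dU.fun_mul (dX.fun_mul dR)).fun_add ((dU.fun_mul dU).const_mul (1/2))).fun_sub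
        (dU.const_mul (2 * c))).fun_sub dG)
      have : deriv H t = _ := dH.deriv
      rw [this]
      have hX0 := XX_nonneg hf ht.1
      have hXA : XX f t ≤ A := XX_mono hf ht.2
      have hR0 := RR_nonneg hf ht.2
      have hk := key_ineq hc hX0 hXA hR0
      have hf1 : 0 ≤ 1 - f t := by linarith [(hf.2 t).2]
      have := mul_le_mul_of_nonneg_left hk hf1
      nlinarith
  rw [hFTC] at hle
  have hH1 : H 1 = (UU f 1) ^ 2 / 2 - 2 * c * UU f 1 := by
    simp only [H, G, RR_one, mul_zero]
    have : Ph c 0 = 0 := by simp [Ph]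
    rw [this]; ring
  have hH0 : H 0 = - Ph c (A * RR f 0) := by
    simp only [H, G, UU_zero]
    ring
  have hq : A * RR f 0 ≤ 1/4 := by
    rw [RR_eq hf, XX_zero]
    nlinarith [sq_nonneg (A - 1/2)]
  have := Ph_mono hc hq
  rw [Ph_quarter hc hc4] at this
  rw [hH1, hH0] at hle
  linarith

end Pool.Agent.R951.SA
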